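import Pool.Agent.TH760.EN.Defs
import Pool.Agent.TH648.SH.Plane
import Pool.Agent.TH698.NagT3

/-! The end `S`: independence in the plane for `a` points of multiplicity `2 m` and `c` points of
multiplicity `m`, from the independence on the small triangle of slope `4 / c`. -/

namespace Pool.Agent.TH335.EN

open Finset Pool.Agent.TH176.Nag Pool.Agent.TH603.Sur Pool.Agent.TH603.Cut Pool.Agent.TH181.NagM
open Pool.Agent.TH648.SH Pool.Agent.TH760.EN Filter Topology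

theorem cond_elim {ι κ : Type} [Fintype ι] [Fintype κ] (w : ι → ℕ) (v : κ → ℕ) :
    cond (Sum.elim w v) = cond w + cond v := by
  unfold Pool.Agent.TH603.Sur.cond
  rw [Fintype.sum_sum_type]
  rfl

/-- two sets of exponents separated by a line -/
theorem Sur_cut {ι κ : Type} [Fintype ι] [Fintype κ] {w : ι → ℕ} {v : κ → ℕ} {S U : Set (ℤ × ℤ)}
    (hS0 : ∀ m ∈ S, 0 ≤ m.1 ∧ 0 ≤ m.2) (hU0 : ∀ m ∈ U, 0 ≤ m.1 ∧ 0 ≤ m.2) (a b : ℤ)
    (hcut : ∀ m ∈ S, ∀ m' ∈ U, a * m.1 + b * m.2 < a * m'.1 + b * m'.2)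
    (h1 : Sur w S) (h2 : Sur v U) : Sur (Sum.elim w v) (S ∪ U) := by
  classical
  obtain ⟨T1, a1, a2, a3⟩ := h1
  obtain ⟨T2, b1, b2, b3⟩ := h2
  refine ⟨T1 ∪ T2, ?_, ?_, ?_⟩
  · rw [Finset.coe_union]
    exact Set.union_subset_union a1 b1
  · rw [Finset.card_union_of_disjoint, a2, b2, cond_elim]
    rw [Finset.disjoint_left]
    intro p hp hq
    exact lt_irrefl _ (hcut p (a1 (Finset.mem_coe.2 hp)) p (b1 (Finset.mem_coe.2 hq)))
  · rw [Finset.coe_union]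
    exact Pool.Agent.TH698.NagT3.Emp_cut T1.finite_toSet T2.finite_toSet
      (fun p hp => hS0 p (a1 hp)) (fun p hp => hU0 p (b1 hp)) a b
      (fun p hp q hq => hcut p (a1 hp) q (b1 hq)) a3 b3

/-- the triangle of slope `n / 4`, `n = 4 a + c` -/
def QN (a c m : ℕ) : Set (ℤ × ℤ) :=
  {p | 0 ≤ p.1 ∧ 0 ≤ p.2 ∧ p.2 < 2 * (m : ℤ) ∧
    4 * p.1 + (4 * (a : ℤ) + c) * p.2 + 4 ≤ 2 * (4 * (a : ℤ) + c) * m + c}

theorem Sur_tri {c : ℕ} (h : HS c) (a m : ℕ) : Sur (wt a c (2 * m) m) (QN a c m) := by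
  have h1 : Sur (fun _ : Fin a => 2 * m)
      {p : ℤ × ℤ | 0 ≤ p.1 ∧ 0 ≤ p.2 ∧ p.1 < (a : ℤ) * (2 * m - p.2) ∧ p.2 < 2 * m} := by
    apply Sur_rows _ 0
    intro k j hj
    have hk : k < 2 * m := by
      by_contra hcon
      have : 2 * m - k = 0 := by omega
      simp [this] at hj
    simp only [sum_const, card_univ, Fintype.card_fin, smul_eq_mul] at hj
    have h2 : (j : ℤ) < (a : ℤ) * ((2 * m - k : ℕ) : ℤ) := by exact_mod_cast hj
    rw [Nat.cast_sub hk.le] at h2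
    refine ⟨by simp, by simp, ?_, by simp only; omega⟩
    simp only [zero_add]
    push_cast at h2
    exact h2
  have h2 : Sur (fun _ : Fin c => m)
      {p : ℤ × ℤ | 0 ≤ p.2 ∧ (a : ℤ) * (2 * m - p.2) ≤ p.1 ∧ p.2 < 2 * m ∧
        4 * p.1 + (4 * (a : ℤ) + c) * p.2 + 4 ≤ 2 * (4 * (a : ℤ) + c) * m + c} := by
    refine (h m).comap 1 a 0 1 (-(2 * a * m)) 0 (by norm_num) ?_
    rintro ⟨i, y⟩ ⟨k1, k2, k3, k4⟩
    simp only at k1 k2 k3 k4
    refine ⟨(i + a * (2 * m - y), y), ⟨k2, ?_, k3, ?_⟩, ?_⟩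
    · simp only
      linarith
    · simp only
      linarith
    · simp only [Prod.mk.injEq]
      exact ⟨by ring, by ring⟩
  have h3 := Sur_cut (fun p hp => ⟨hp.1, hp.2.1⟩) (fun p hp => ⟨?_, hp.1⟩) 1 a ?_ h1 h2
  · refine h3.mono ?_
    rintro p (⟨k1, k2, k3, k4⟩ | ⟨k1, k2, k3, k4⟩)
    · refine ⟨k1, k2, k4, ?_⟩
      have k5 : (c : ℤ) * p.2 ≤ c * (2 * m) := mul_le_mul_of_nonneg_left k4.le (by positivity)
      have k6 : (0 : ℤ) ≤ c := by positivity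
      linarith
    · refine ⟨?_, k1, k3, k4⟩
      have k5 : 0 ≤ (a : ℤ) * (2 * m - p.2) := mul_nonneg (by positivity) (by linarith)
      linarith
  · have k5 : 0 ≤ (a : ℤ) * (2 * m - p.2) := mul_nonneg (by positivity) (by linarith [hp.2.2.1])
    linarith [hp.2.1]
  · rintro p ⟨k1, k2, k3, k4⟩ p' ⟨k1', k2', k3', k4'⟩
    linarith

/-- the right triangle of real slope `s ^ 2` slightly larger than `n / 4` -/
theorem Sur_regO {c : ℕ} (h : HS c) (a m : ℕ) {s α B : ℝ}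
    (hs : a + (c : ℝ) / 4 ≤ s ^ 2)
    (hB : ((4 * a + c : ℝ) * m + 2 * a + c) / 2 + 2 * m * (s ^ 2 - (a + (c : ℝ) / 4)) < B) :
    Sur (wt a c (2 * m) m) (RegO α (α + B) 0 (s ^ 2)) := by
  refine (Sur_tri h a m).shift (-(⌊α⌋ + 1)) (-1) ?_
  rintro ⟨x, y⟩ ⟨k1, k2, k3, k4⟩
  simp only at k1 k2 k3 k4
  have k1' : (0 : ℝ) ≤ x := by exact_mod_cast k1
  have k2' : (0 : ℝ) ≤ y := by exact_mod_cast k2
  have k3' : (y : ℝ) + 1 ≤ 2 * m := by exact_mod_cast k3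
  have k4' : 4 * (x : ℝ) + (4 * a + c) * y + 4 ≤ 2 * (4 * a + c) * m + c := by exact_mod_cast k4
  have f1 := Int.floor_le α
  have f2 := Int.lt_floor_add_one α
  refine ⟨by simp only; omega, ?_, ?_⟩
  · simp only
    push_cast
    linarith
  · simp only
    push_cast
    have k5 : (s ^ 2 - (a + (c : ℝ) / 4)) * (y + 1) ≤ (s ^ 2 - (a + (c : ℝ) / 4)) * (2 * m) :=
      mul_le_mul_of_nonneg_left k3' (by linarith)
    linarith

theorem Sur_plane_irr' {c : ℕ} (h : HS c) (a m d : ℕ) {r : ℝ} (hr : 3 ≤ r)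
    (hirr : Irrational r) (hs : a + (c : ℝ) / 4 ≤ r ^ 2)
    (hB : ((4 * a + c : ℝ) * m + 2 * a + c) / 2 + 2 * m * (r ^ 2 - (a + (c : ℝ) / 4)) <
      r * (d + 3)) :
    Sur (wt a c (2 * m) m) (TZ d) := by
  have hr0 : 0 < r := by linarith
  set L : ℝ := ((4 * a + c : ℝ) * m + 2 * a + c) / 2 + 2 * m * (r ^ 2 - (a + (c : ℝ) / 4)) with hL
  have hL0 : 0 ≤ L := by
    have h1 : 0 ≤ r ^ 2 - (a + (c : ℝ) / 4) := by linarith
    positivity
  have hc0 : 0 ≤ L / r := by positivity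
  have hcd : L / r < d + 3 := by
    rw [div_lt_iff₀ hr0]
    linarith
  have hSP : SP (wt a c (2 * m) m) (L / r) 0 (r ^ 2) := by
    refine ⟨by positivity, fun E hE α => ?_⟩
    rw [zero_add, Real.sqrt_sq hr0.le]
    apply Sur_regO h a m hs
    rw [← hL]
    rwa [div_lt_iff₀ hr0] at hE
  obtain ⟨k, τ, hk, h0, h1⟩ := exists_tau r
  have h2 := (Mv_tau hr k hk).closed (SP_closed hc0) hSP
  have h3 := h2.2 ((d : ℝ) + 3) hcd (-(((d : ℝ) + 3) * (1 + τ)))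
  have e1 : 3 * (1 + τ) + 3 * (2 - τ) = (3 : ℝ) ^ 2 := by ring
  rw [e1, Real.sqrt_sq (by norm_num)] at h3
  have e2 : -(((d : ℝ) + 3) * (1 + τ)) + ((d : ℝ) + 3) * 3 = ((d : ℝ) + 3) * (2 - τ) := by ring
  rw [e2] at h3
  refine Sur_keyO h0 h1 ?_ h3
  intro hq
  obtain ⟨q, hq⟩ := hq
  apply hirr
  refine ⟨(k + 3 * q) / 3, ?_⟩
  push_cast
  rw [hq]
  linarith

/-- **the end `S`** -/
theorem endS' {c : ℕ} (h : HS c) : EndS c := by
  intro a n m d hn hn36 hd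
  have hn' : (n : ℝ) = 4 * a + c := by rw [hn]; push_cast; ring
  have hn36' : (36 : ℝ) ≤ n := by exact_mod_cast hn36
  set r₀ : ℝ := √(n : ℝ) / 2 with hr₀
  have hsq : √(n : ℝ) ^ 2 = n := Real.sq_sqrt (by linarith)
  have hr₀2 : r₀ ^ 2 = a + (c : ℝ) / 4 := by
    rw [hr₀, div_pow, hsq, hn']; ring
  have hr₀3 : 3 ≤ r₀ := by
    have h1 : (6 : ℝ) ≤ √(n : ℝ) := by
      apply Real.le_sqrt_of_sq_le
      linarith
    rw [hr₀]; linarith
  -- a slightly larger slope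
  have hcont : Filter.Tendsto (fun s : ℝ => s * ((d : ℝ) + 3) -
      (((4 * a + c : ℝ) * m + 2 * a + c) / 2 + 2 * m * (s ^ 2 - (a + (c : ℝ) / 4)))) (𝓝 r₀)
      (𝓝 (r₀ * ((d : ℝ) + 3) -
        (((4 * a + c : ℝ) * m + 2 * a + c) / 2 + 2 * m * (r₀ ^ 2 - (a + (c : ℝ) / 4))))) := by
    apply Continuous.tendsto
    fun_prop
  have hpos : 0 < r₀ * ((d : ℝ) + 3) -
        (((4 * a + c : ℝ) * m + 2 * a + c) / 2 + 2 * m * (r₀ ^ 2 - (a + (c : ℝ) / 4))) := by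
    rw [hr₀2, hr₀]
    rw [hn'] at hd
    rw [hn']
    have e : (a + (c : ℝ) / 4) - (a + (c : ℝ) / 4) = 0 := sub_self _
    rw [e, mul_zero, add_zero]
    linarith
  have hev := hcont.eventually (Ioi_mem_nhds hpos)
  obtain ⟨ε, hε, hball⟩ := Metric.eventually_nhds_iff.1 hev
  obtain ⟨s, hs, hs1, hs2⟩ := exists_irrational_btwn (show r₀ < r₀ + ε by linarith)
  have h2 := hball (y := s) (by rw [Real.dist_eq, abs_of_pos (by linarith)]; linarith)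
  have h2' : 0 < s * ((d : ℝ) + 3) -
      (((4 * a + c : ℝ) * m + 2 * a + c) / 2 + 2 * m * (s ^ 2 - (a + (c : ℝ) / 4))) := h2
  refine Sur_plane_irr' h a m d (by linarith) hs ?_ (by linarith)
  rw [← hr₀2]
  exact pow_le_pow_left₀ (by linarith) hs1.le 2

theorem endS {c : ℕ} (_hc : 1 ≤ c) (h : HS c) : EndS c := endS' h

end Pool.Agent.TH335.EN
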